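import Pool.Agent.Helper17.CR.Stmts2
import Pool.Agent.Helper74.CR.FITC

/-!
Module FITG: an element of prime order which centralizes all normal subgroups of prime power order.
-/

set_option autoImplicit false

namespace Pool.Agent.Helper17.CR

universe u

theorem fitg_cent {N : Type u} [Group N] [Finite N] (K : Subgroup N)
    (h : ∀ (p : ℕ) [Fact p.Prime] (P : Sylow p N), (P : Subgroup N) ≤ K) : K = ⊤ := by
  apply Subgroup.eq_top_of_card_eq
  apply Nat.dvd_antisymm (Subgroup.card_subgroup_dvd_card K)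
  rw [Nat.dvd_iff_prime_pow_dvd_dvd]
  intro p k hp hpk
  have : Fact p.Prime := ⟨hp⟩
  obtain ⟨P⟩ : Nonempty (Sylow p N) := inferInstance
  exact (P.pow_dvd_card_of_pow_dvd_card hpk).trans (Subgroup.card_dvd_of_le (h p P))

/-- the elements of `q`-power order of an abelian normal subgroup -/
theorem fitg_prim {G : Type u} [Group G] (C : Subgroup G) (hC : C.Normal)
    (hcom : ∀ x ∈ C, ∀ y ∈ C, x * y = y * x) (q : ℕ) :
    ∃ Q : Subgroup G, Q.Normal ∧ IsPGroup q Q ∧ ∀ x ∈ C, ∀ k : ℕ, x ^ (q ^ k) = 1 → x ∈ Q := by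
  let Q : Subgroup G :=
    { carrier := {g | g ∈ C ∧ ∃ k : ℕ, g ^ (q ^ k) = 1}
      one_mem' := ⟨C.one_mem, 0, one_pow _⟩
      mul_mem' := by
        rintro x y ⟨hx, k, hk⟩ ⟨hy, l, hl⟩
        refine ⟨C.mul_mem hx hy, k + l, ?_⟩
        have hc : Commute x y := hcom x hx y hy
        rw [hc.mul_pow]
        have e1 : x ^ q ^ (k + l) = 1 := by rw [pow_add, pow_mul, hk, one_pow]
        have e2 : y ^ q ^ (k + l) = 1 := by
          rw [add_comm, pow_add, pow_mul, hl, one_pow]
        rw [e1, e2, one_mul]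
      inv_mem' := by
        rintro x ⟨hx, k, hk⟩
        exact ⟨C.inv_mem hx, k, by rw [inv_pow, hk, inv_one]⟩ }
  refine ⟨Q, ⟨?_⟩, ?_, fun x hx k hk => ⟨hx, k, hk⟩⟩
  · rintro x ⟨hx, k, hk⟩ g
    refine ⟨hC.conj_mem x hx g, k, ?_⟩
    rw [conj_pow, hk, mul_one, mul_inv_cancel]
  · rintro ⟨x, hx, k, hk⟩
    exact ⟨k, Subtype.ext hk⟩

theorem st_FITG : ST_FITG.{u} := by
  intro G _ _ _ x hx hq
  by_contra hcon
  push Not at hcon
  -- the centralizer of all normal subgroups of prime power order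
  let C : Subgroup G :=
    { carrier := {g | ∀ (p : ℕ) (P : Subgroup G), p.Prime → P.Normal → IsPGroup p P →
        ∀ y ∈ P, g * y = y * g}
      one_mem' := by
        intro p P _ _ _ y _
        rw [one_mul, mul_one]
      mul_mem' := by
        intro a b ha hb p P hp hP hpP y hy
        rw [mul_assoc, hb p P hp hP hpP y hy, ← mul_assoc, ha p P hp hP hpP y hy, mul_assoc]
      inv_mem' := by
        intro a ha p P hp hP hpP y hy
        have h1 := ha p P hp hP hpP y hy
        rw [inv_mul_eq_iff_eq_mul, ← mul_assoc, h1, mul_assoc, mul_inv_cancel, mul_one] }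
  have hC : C.Normal := by
    constructor
    intro a ha g p P hp hP hpP y hy
    have h1 := ha p P hp hP hpP (g⁻¹ * y * g) (by
      have := hP.conj_mem y hy g⁻¹
      simpa using this)
    calc g * a * g⁻¹ * y = g * (a * (g⁻¹ * y * g)) * g⁻¹ := by group
      _ = g * ((g⁻¹ * y * g) * a) * g⁻¹ := by rw [h1]
      _ = y * (g * a * g⁻¹) := by group
  have hxC : x ∈ C := fun p P hp hP hpP y hy => hcon p P hp hP hpP y hy
  have hab : C ≤ C ⊓ Subgroup.centralizer (C : Set G) := by
    by_contra hne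
    have i1 : (Subgroup.centralizer (C : Set G)).Normal := inferInstance
    have i2 : (C ⊓ Subgroup.centralizer (C : Set G)).Normal := inferInstance
    obtain ⟨N, hN, h1, h2, h3, h4⟩ := Pool.Agent.Helper74.CR.fitc_key G (C ⊓ Subgroup.centralizer (C : Set G)) C i2 hC
      inf_le_left (fun a ha c hc => (Subgroup.mem_centralizer_iff.1 ha.2 c hc).symm) hne
    apply h3
    refine le_inf h2 ?_
    intro n hn
    rw [Subgroup.mem_centralizer_iff]
    intro c hc
    have hK : ((Subgroup.centralizer {c}).subgroupOf N) = ⊤ := by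
      apply fitg_cent
      intro p _ P
      have hPn : (P : Subgroup N).Normal := inferInstance
      have hPc : (P : Subgroup N).Characteristic := Sylow.characteristic_of_normal P hPn
      have hPG : ((P : Subgroup N).map N.subtype).Normal := inferInstance
      intro y hy
      rw [Subgroup.mem_subgroupOf, Subgroup.mem_centralizer_iff]
      intro d hd
      rw [Set.mem_singleton_iff] at hd
      rw [hd]
      exact hc p _ (Fact.out) hPG (P.isPGroup'.map N.subtype) y ⟨y, hy, rfl⟩
    have hn' : (⟨n, hn⟩ : N) ∈ ((Subgroup.centralizer {c}).subgroupOf N) := by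
      rw [hK]; exact Subgroup.mem_top _
    rw [Subgroup.mem_subgroupOf, Subgroup.mem_centralizer_iff] at hn'
    exact hn' c rfl
  have hcom : ∀ y ∈ C, ∀ z ∈ C, y * z = z * y := by
    intro y hy z hz
    exact Subgroup.mem_centralizer_iff.1 (hab hz).2 y hy
  obtain ⟨Q, hQ1, hQ2, hQ3⟩ := fitg_prim C hC hcom (orderOf x)
  have hQ := hq Q hQ1 hQ2
  have hxQ : x ∈ Q := hQ3 x hxC 1 (by rw [pow_one, pow_orderOf_eq_one])
  rw [hQ, Subgroup.mem_bot] at hxQ
  rw [hxQ, orderOf_one] at hx
  exact Nat.not_prime_one hx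

end Pool.Agent.Helper17.CR
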