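import Pool.Agent.Helper17.CR.Stmts2
import Pool.Agent.Helper64.CR.MIN

/-!
Module HALL: Hall subgroups of finite solvable groups.
-/

set_option autoImplicit false

namespace Pool.Agent.Helper17.CR

universe u

theorem hall_dvd (l j a a' b : ℕ) (hl : l.Prime) (h : ∀ i : ℕ, l ^ i ∣ a → l ^ i ∣ a')
    (hj : l ^ j ∣ a * b) : l ^ j ∣ a' * b := by
  obtain ⟨d1, d2, h1, h2, he⟩ := exists_dvd_and_dvd_of_dvd_mul hj
  obtain ⟨i, hi, rfl⟩ := (Nat.dvd_prime_pow hl).1 (Dvd.intro _ he.symm)
  rw [he]
  exact mul_dvd_mul (h i h1) h2

theorem st_HALL : ST_HALL.{u} := by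
  have key : ∀ (n : ℕ) (G : Type u) [Group G] [Finite G] [Group.IsSolvable G] (Pi : ℕ → Prop),
      Nat.card G = n → ∃ K : Subgroup G, (∀ l : ℕ, l.Prime → l ∣ Nat.card K → Pi l) ∧
      ∀ l j : ℕ, l.Prime → Pi l → l ^ j ∣ Nat.card G → l ^ j ∣ Nat.card K := by
    intro n
    induction n using Nat.strong_induction_on with
    | _ n ih =>
      intro G _ _ _ Pi hn
      rcases subsingleton_or_nontrivial G with hs | hnt
      · refine ⟨⊤, ?_, ?_⟩
        · intro l hl hd
          rw [Subgroup.card_top, Nat.card_unique] at hd
          exact absurd (Nat.dvd_one.1 hd) hl.one_lt.ne'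
        · intro l j _ _ hd
          rwa [Subgroup.card_top]
      · obtain ⟨q, M, hq, -, hM, hMp, hM0, -⟩ := Pool.Agent.Helper64.CR.st_MIN G 1 (by
          intro N _ hN
          rw [Subgroup.eq_bot_iff_forall]
          intro x hx
          obtain ⟨k, hk⟩ := hN ⟨x, hx⟩
          rw [one_pow, pow_one] at hk
          exact congrArg Subtype.val hk)
        have hMc : 1 < Nat.card M := by
          rw [Subgroup.one_lt_card_iff_ne_bot]
          exact hM0
        have hGM : Nat.card G = Nat.card (G ⧸ M) * Nat.card M :=
          Subgroup.card_eq_card_quotient_mul_card_subgroup M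
        have hpos : 0 < Nat.card (G ⧸ M) := Nat.card_pos
        have hlt : Nat.card (G ⧸ M) < n := by
          rw [← hn, hGM]
          exact lt_mul_of_one_lt_right hpos hMc
        obtain ⟨K', hK1, hK2⟩ := ih _ hlt (G ⧸ M) Pi rfl
        obtain ⟨L, hL⟩ : ∃ L, L = K'.comap (QuotientGroup.mk' M) := ⟨_, rfl⟩
        have hML : M ≤ L := by
          intro x hx
          rw [hL, Subgroup.mem_comap]
          have : QuotientGroup.mk' M x = 1 := by
            rw [QuotientGroup.mk'_apply, QuotientGroup.eq_one_iff]; exact hx
          rw [this]
          exact K'.one_mem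
        have hLc : Nat.card L = Nat.card K' * Nat.card M := by
          have e1 : L.index = K'.index := by
            rw [hL]
            exact K'.index_comap_of_surjective (QuotientGroup.mk'_surjective M)
          have e2 : Nat.card L * L.index = Nat.card G := L.card_mul_index
          have e3 : Nat.card K' * K'.index = Nat.card (G ⧸ M) := K'.card_mul_index
          have hi : K'.index ≠ 0 := Subgroup.index_ne_zero_of_finite
          rw [e1, hGM, ← e3] at e2
          have : Nat.card L * K'.index = (Nat.card K' * Nat.card M) * K'.index := by
            rw [e2]; ring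
          exact Nat.eq_of_mul_eq_mul_right (Nat.pos_of_ne_zero hi) this
        obtain ⟨k, hk⟩ : ∃ k, Nat.card M = q ^ k := by
          haveI : Fact q.Prime := ⟨hq⟩
          exact IsPGroup.iff_card.1 hMp
        by_cases hPq : Pi q
        · refine ⟨L, ?_, ?_⟩
          · intro l hl hd
            rw [hLc] at hd
            rcases (Nat.Prime.dvd_mul hl).1 hd with h | h
            · exact hK1 l hl h
            · rw [hk] at h
              have := (Nat.prime_dvd_prime_iff_eq hl hq).1 (hl.dvd_of_dvd_pow h)
              rw [this]
              exact hPq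
          · intro l j hl hPl hd
            rw [hLc]
            rw [hGM] at hd
            exact hall_dvd l j _ _ _ hl (fun i hi => hK2 l i hl hPl hi) hd
        · have hMn : (M.subgroupOf L).Normal := inferInstance
          have hMLc : Nat.card (M.subgroupOf L) = Nat.card M :=
            Nat.card_congr (Subgroup.subgroupOfEquivOfLe hML).toEquiv
          have hidx : (M.subgroupOf L).index = Nat.card K' := by
            have e1 := (M.subgroupOf L).card_mul_index
            rw [hMLc, hLc, mul_comm] at e1
            exact Nat.eq_of_mul_eq_mul_right (by omega) e1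
          have hqK : ¬ q ∣ Nat.card K' := fun h => hPq (hK1 q hq h)
          have hcop : Nat.Coprime (Nat.card (M.subgroupOf L)) (M.subgroupOf L).index := by
            rw [hMLc, hidx, hk]
            exact Nat.Coprime.pow_left k ((Nat.Prime.coprime_iff_not_dvd hq).2 hqK)
          obtain ⟨H, hH⟩ := Subgroup.exists_right_complement'_of_coprime hcop
          have hHc : Nat.card H = Nat.card K' := by
            have e1 := hH.card_mul
            rw [hMLc, hLc, mul_comm] at e1
            exact Nat.eq_of_mul_eq_mul_right (by omega) e1
          refine ⟨H.map L.subtype, ?_, ?_⟩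
          · intro l hl hd
            rw [Subgroup.card_map_of_injective L.subtype_injective, hHc] at hd
            exact hK1 l hl hd
          · intro l j hl hPl hd
            rw [Subgroup.card_map_of_injective L.subtype_injective, hHc]
            apply hK2 l j hl hPl
            rw [hGM, hk] at hd
            have hlq : l ≠ q := by
              rintro rfl
              exact hPq hPl
            have hc : Nat.Coprime (l ^ j) (q ^ k) :=
              Nat.Coprime.pow _ _ ((Nat.coprime_primes hl hq).2 hlq)
            exact hc.dvd_of_dvd_mul_right hd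
  intro G _ _ _ Pi
  exact key _ G Pi rfl

end Pool.Agent.Helper17.CR
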